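import Pool.Agent.Helper38.Curl.Rep

open MeasureTheory Set Filter Topology Metric
open scoped ContDiff RealInnerProductSpace
open Pool.Agent.Helper38.Curl

namespace Pool.Agent.Helper27.Curl

/-- A Beltrami field. -/
noncomputable def bel (x : E) : E := !₂[Real.sin (x 2), Real.cos (x 2), 0]

theorem contDiff_bel : ContDiff ℝ ∞ bel := by
  rw [contDiff_euclidean]
  have h2 : ContDiff ℝ ∞ (fun x : E => x 2) := by
    exact (EuclideanSpace.proj (𝕜 := ℝ) (2 : Fin 3)).contDiff
  intro i
  fin_cases i
  · have h : ContDiff ℝ ∞ (fun x : E => Real.sin (x 2)) := Real.contDiff_sin.comp h2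
    exact h
  · have h : ContDiff ℝ ∞ (fun x : E => Real.cos (x 2)) := Real.contDiff_cos.comp h2
    exact h
  · exact contDiff_const

theorem pd_bel_eq (x : E) (i j : Fin 3) : pd bel i j x = fderiv ℝ (fun y => bel y j) x (bv i) := by
  unfold pd
  have hd : DifferentiableAt ℝ bel x := (contDiff_bel.differentiable (by simp)).differentiableAt
  have h := ((EuclideanSpace.proj (𝕜 := ℝ) j).hasFDerivAt (x := bel x)).comp x hd.hasFDerivAt
  have h3 : fderiv ℝ (fun y => bel y j) x = _ := h.fderiv
  rw [h3]; rfl

theorem curl_bel (x : E) : curl bel x = bel x := by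
  have hp : HasFDerivAt (fun x : E => x 2) (EuclideanSpace.proj (𝕜 := ℝ) (2 : Fin 3)) x :=
    (EuclideanSpace.proj (𝕜 := ℝ) (2 : Fin 3)).hasFDerivAt
  have h0 : ∀ i, pd bel i 0 x = Real.cos (x 2) * (bv i) 2 := by
    intro i
    rw [pd_bel_eq]
    have : (fun y => bel y 0) = fun y : E => Real.sin (y 2) := by ext y; simp [bel]
    rw [this, (hp.sin).fderiv]
    simp
  have h1 : ∀ i, pd bel i 1 x = - Real.sin (x 2) * (bv i) 2 := by
    intro i
    rw [pd_bel_eq]
    have : (fun y => bel y 1) = fun y : E => Real.cos (y 2) := by ext y; simp [bel]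
    rw [this, (hp.cos).fderiv]
    simp
  have h2 : ∀ i, pd bel i 2 x = 0 := by
    intro i
    rw [pd_bel_eq]
    have : (fun y => bel y 2) = fun y : E => (0 : ℝ) := by ext y; simp [bel]
    rw [this]
    simp
  apply ext3
  · rw [curl_apply_zero, h2, h1]; simp [bv, bel]
  · rw [curl_apply_one, h0, h2]; simp [bv, bel]
  · rw [curl_apply_two, h1, h0]; simp [bv, bel]

theorem norm_bel (x : E) : ‖bel x‖ ^ 2 = 1 := by
  rw [norm_sq_eq]; simp [bel]

/-- Every nonempty open set carries a test field of positive helicity. -/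
theorem exists_pos_helicity {Ω : Set E} (ho : IsOpen Ω) (hn : Ω.Nonempty) :
    ∃ A, TestIn Ω A ∧ 0 < ip (curl A) A := by
  obtain ⟨p, hp⟩ := hn
  obtain ⟨η, h1, h2, h3', h4, h5⟩ := exists_contDiff_tsupport_subset (n := ⊤) (ho.mem_nhds hp)
  have h3 : ContDiff ℝ ∞ η := h3'
  have hA : ∀ x, ⟪curl (fun y => η y • bel y) x, η x • bel x⟫ = η x ^ 2 := by
    intro x
    have hηd : DifferentiableAt ℝ η x := (h3.differentiable (by simp)).differentiableAt
    have hBd : DifferentiableAt ℝ bel x := (contDiff_bel.differentiable (by simp)).differentiableAt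
    rw [curl_smul hηd hBd, curl_bel, inner_add_left, inner_smul_right, inner_smul_right,
      inner_smul_left, inner_cr, cr_self, real_inner_self_eq_norm_sq, norm_bel]
    simp
    ring
  refine ⟨fun y => η y • bel y, ⟨⟨h3.smul contDiff_bel, h2.smul_right⟩, ?_⟩, ?_⟩
  · exact (closure_mono (Function.support_smul_subset_left _ _)).trans h1
  · have hip : ip (curl (fun y => η y • bel y)) (fun y => η y • bel y) = ∫ x, η x ^ 2 := by
      unfold ip
      exact integral_congr_ae (Eventually.of_forall hA)
    rw [hip]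
    have hc : Continuous (fun x => η x ^ 2) := h3.continuous.pow 2
    refine hc.integral_pos_of_hasCompactSupport_nonneg_nonzero ?_ (fun x => by positivity)
      (x := p) (by simp [h5])
    have : (fun x => η x ^ 2) = fun x => η x * η x := by ext x; ring
    rw [this]
    exact h2.mul_right

end Pool.Agent.Helper27.Curl
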